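import Pool.Agent.H49.FL.EXC

/-! MP_6a7a6f_gt, row EDG: an edge of a common face at which both phases are large. -/

open Pool.Agent.H58.FL Pool.Agent.H59 Pool.Agent.H48.FR

namespace Pool.Agent.H49.FL

theorem pf_EDG (hTRI : T_TRI) (hSYM : T_SYM) : T_EDG := by
  intro E _ _ a b c d e ha hb hc hd he hab hac had hbc hbd hcd hae hbe hce h1 h2
  have hp := Real.pi_pos
  have e1 : ar c a d = -ar a c d := by
    rw [← (hSYM E c a d).1]
    exact (ar_sw hTRI hSYM ha hc hd hac hcd had).2.1
  have e2 : ar c a e = -ar a c e := by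
    rw [← (hSYM E c a e).1]
    exact (ar_sw hTRI hSYM ha hc he hac hce hae).2.1
  have h3 : ar b c d - ar a c d + ar a b d - ar a b c = 2 * Real.pi := by
    unfold mn at h1
    rw [div_eq_iff (by positivity)] at h1
    linarith
  have h4 : ar b c e - ar a c e + ar a b e - ar a b c = 2 * Real.pi := by
    unfold mn at h2
    rw [div_eq_iff (by positivity)] at h2
    linarith
  have h5 := abs_lt.1 (tri_lt hTRI ha hb hc hab hbc hac)
  rw [e1, e2]
  by_contra hcon
  push Not at hcon
  obtain ⟨g1, g2, g3⟩ := hcon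
  linarith [h5.1]

end Pool.Agent.H49.FL
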