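import Pool.Agent.H49.FL.OPP

/-! MP_6a7a6f_gt, row EXC: two monopoles of the same sign with a common face. -/

open Pool.Agent.H58.FL Pool.Agent.H59 Pool.Agent.H48.FR

namespace Pool.Agent.H49.FL

section

variable {E : Type} [NormedAddCommGroup E] [InnerProductSpace ℂ E]

/-- four unit vectors which are pairwise close -/
structure Qd (a b c d : E) : Prop where
  ha : ‖a‖ = 1
  hb : ‖b‖ = 1
  hc : ‖c‖ = 1
  hd : ‖d‖ = 1
  hab : Adj (5 / 16) a b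
  hac : Adj (5 / 16) a c
  had : Adj (5 / 16) a d
  hbc : Adj (5 / 16) b c
  hbd : Adj (5 / 16) b d
  hcd : Adj (5 / 16) c d

lemma Qd.s12 {a b c d : E} (h : Qd a b c d) : Qd b a c d :=
  ⟨h.hb, h.ha, h.hc, h.hd, adj_symm h.hab, h.hbc, h.hbd, h.hac, h.had, h.hcd⟩

lemma Qd.s23 {a b c d : E} (h : Qd a b c d) : Qd a c b d :=
  ⟨h.ha, h.hc, h.hb, h.hd, h.hac, h.hab, h.had, adj_symm h.hbc, h.hcd, h.hbd⟩

lemma Qd.s34 {a b c d : E} (h : Qd a b c d) : Qd a b d c :=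
  ⟨h.ha, h.hb, h.hd, h.hc, h.hab, h.had, h.hac, h.hbd, h.hbc, adj_symm h.hcd⟩

lemma far_symm {a b : E} (h : Far a b) : Far b a := by
  unfold Far at h ⊢
  rw [norm_inner_symm]
  exact h

lemma tri_lt (hTRI : T_TRI) {a b c : E} (ha : ‖a‖ = 1) (hb : ‖b‖ = 1) (hc : ‖c‖ = 1)
    (hab : Adj (5 / 16) a b) (hbc : Adj (5 / 16) b c) (hac : Adj (5 / 16) a c) :
    |ar a b c| < 9 * Real.pi / 16 :=
  (hTRI E a b c ha hb hc hab hbc (adj_symm hac)).2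

lemma tri_pi (hTRI : T_TRI) {a b c : E} (ha : ‖a‖ = 1) (hb : ‖b‖ = 1) (hc : ‖c‖ = 1)
    (hab : Adj (5 / 16) a b) (hbc : Adj (5 / 16) b c) (hac : Adj (5 / 16) a c) :
    |ar a b c| < Real.pi := by
  have := tri_lt hTRI ha hb hc hab hbc hac
  have hp := Real.pi_pos
  linarith

lemma ar_sw (hTRI : T_TRI) (hSYM : T_SYM) {a b c : E} (ha : ‖a‖ = 1) (hb : ‖b‖ = 1)
    (hc : ‖c‖ = 1) (hab : Adj (5 / 16) a b) (hbc : Adj (5 / 16) b c) (hac : Adj (5 / 16) a c) :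
    ar b a c = -ar a b c ∧ ar a c b = -ar a b c ∧ ar c b a = -ar a b c :=
  (hSYM E a b c).2.1 (tri_pi hTRI ha hb hc hab hbc hac)

lemma mn_s12 (hTRI : T_TRI) (hSYM : T_SYM) {a b c d : E} (h : Qd a b c d) :
    mn b a c d = -mn a b c d := by
  have h1 := (ar_sw hTRI hSYM h.ha h.hb h.hd h.hab h.hbd h.had).1
  have h2 := (ar_sw hTRI hSYM h.ha h.hb h.hc h.hab h.hbc h.hac).1
  unfold mn
  rw [h1, h2]
  ring

lemma mn_s23 (hTRI : T_TRI) (hSYM : T_SYM) {a b c d : E} (h : Qd a b c d) :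
    mn a c b d = -mn a b c d := by
  have h1 := (ar_sw hTRI hSYM h.hb h.hc h.hd h.hbc h.hcd h.hbd).1
  have h2 := (ar_sw hTRI hSYM h.ha h.hb h.hc h.hab h.hbc h.hac).2.1
  unfold mn
  rw [h1, h2]
  ring

lemma mn_s34 (hTRI : T_TRI) (hSYM : T_SYM) {a b c d : E} (h : Qd a b c d) :
    mn a b d c = -mn a b c d := by
  have h1 := (ar_sw hTRI hSYM h.hb h.hc h.hd h.hbc h.hcd h.hbd).2.1
  have h2 := (ar_sw hTRI hSYM h.ha h.hc h.hd h.hac h.hcd h.had).2.1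
  unfold mn
  rw [h1, h2]
  ring

lemma far12 (hOPP : T_OPP) {a b c d : E} (h : Qd a b c d) (hm : mn a b c d ≠ 0) : Far a b :=
  hOPP E a b c d h.ha h.hb h.hc h.hd h.hab h.hac h.had h.hbc h.hbd h.hcd hm

lemma far_all (hTRI : T_TRI) (hSYM : T_SYM) (hOPP : T_OPP) {a b c d : E} (h : Qd a b c d)
    (hm : mn a b c d ≠ 0) : Far a b ∧ Far a c ∧ Far a d ∧ Far b c ∧ Far b d ∧ Far c d := by
  have n12 : ∀ {a b c d : E}, Qd a b c d → mn a b c d ≠ 0 → mn b a c d ≠ 0 := by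
    intro a b c d h hm
    rw [mn_s12 hTRI hSYM h]
    exact neg_ne_zero.2 hm
  have n23 : ∀ {a b c d : E}, Qd a b c d → mn a b c d ≠ 0 → mn a c b d ≠ 0 := by
    intro a b c d h hm
    rw [mn_s23 hTRI hSYM h]
    exact neg_ne_zero.2 hm
  have n34 : ∀ {a b c d : E}, Qd a b c d → mn a b c d ≠ 0 → mn a b d c ≠ 0 := by
    intro a b c d h hm
    rw [mn_s34 hTRI hSYM h]
    exact neg_ne_zero.2 hm
  refine ⟨far12 hOPP h hm, far12 hOPP h.s23 (n23 h hm), ?_, ?_, ?_, ?_⟩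
  · exact far12 hOPP h.s34.s23 (n23 h.s34 (n34 h hm))
  · exact far12 hOPP h.s12.s23 (n23 h.s12 (n12 h hm))
  · exact far12 hOPP h.s12.s34.s23 (n23 h.s12.s34 (n34 h.s12 (n12 h hm)))
  · exact far12 hOPP h.s23.s12.s34.s23 (n23 h.s23.s12.s34 (n34 h.s23.s12 (n12 h.s23 (n23 h hm))))

lemma mn_pm (hTRI : T_TRI) (hINT : T_INT) {a b c d : E} (h : Qd a b c d) (hm : mn a b c d ≠ 0) :
    mn a b c d = 1 ∨ mn a b c d = -1 := by
  obtain ⟨m, hm'⟩ := (hINT E).1 a b c d (adj_ne h.hab) (adj_ne h.hac) (adj_ne h.had) (adj_ne h.hbc)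
    (adj_ne h.hbd) (adj_ne h.hcd)
  have hm0 : m ≠ 0 := by
    rintro rfl
    apply hm
    rw [hm']
    simp
  have b1 := abs_lt.1 (tri_lt hTRI h.ha h.hb h.hd h.hab h.hbd h.had)
  have b2 := abs_lt.1 (tri_lt hTRI h.ha h.hb h.hc h.hab h.hbc h.hac)
  have b3 := abs_lt.1 (tri_lt hTRI h.hb h.hc h.hd h.hbc h.hcd h.hbd)
  have b4 := abs_lt.1 (tri_lt hTRI h.ha h.hc h.hd h.hac h.hcd h.had)
  have hp := Real.pi_pos
  have hsum : (ar a b d - ar a b c) + (ar b c d - ar a c d) = 2 * Real.pi * m := by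
    unfold mn at hm'
    rw [← hm']
    field_simp
    ring
  rcases op_int m _ _ hsum hm0 (by rw [abs_lt]; constructor <;> linarith)
      (by rw [abs_lt]; constructor <;> linarith) with h' | h'
  · left
    rw [hm', h']
    simp
  · right
    rw [hm', h']
    simp

lemma exc_one (hTRI : T_TRI) (hSYM : T_SYM) (hOPP : T_OPP) (hEDG : T_EDG) (hEXI : T_EXI)
    {a b c d e : E} (hd : Qd a b c d) (he : Qd a b c e) (h1 : mn a b c d = 1)
    (h2 : mn a b c e = 1) : ¬ Far d e := by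
  have f1 := far_all hTRI hSYM hOPP hd (by rw [h1]; norm_num)
  have f2 := far_all hTRI hSYM hOPP he (by rw [h2]; norm_num)
  obtain ⟨fab, fac, fad, fbc, fbd, fcd⟩ := f1
  obtain ⟨_, _, fae, _, fbe, fce⟩ := f2
  rcases hEDG E a b c d e hd.ha hd.hb hd.hc hd.hd he.hd hd.hab hd.hac hd.had hd.hbc hd.hbd hd.hcd
    he.had he.hbd he.hcd h1 h2 with h | h | h
  · exact hEXI E a b d e hd.ha hd.hb hd.hd he.hd hd.hab hd.had hd.hbd he.had he.hbd fab fad fbd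
      fae fbe (abs_lt.1 (tri_lt hTRI hd.ha hd.hb hd.hd hd.hab hd.hbd hd.had)).2
      (abs_lt.1 (tri_lt hTRI he.ha he.hb he.hd he.hab he.hbd he.had)).2 h
  · exact hEXI E b c d e hd.hb hd.hc hd.hd he.hd hd.hbc hd.hbd hd.hcd he.hbd he.hcd fbc fbd fcd
      fbe fce (abs_lt.1 (tri_lt hTRI hd.hb hd.hc hd.hd hd.hbc hd.hcd hd.hbd)).2
      (abs_lt.1 (tri_lt hTRI he.hb he.hc he.hd he.hbc he.hcd he.hbd)).2 h
  · exact hEXI E c a d e hd.hc hd.ha hd.hd he.hd (adj_symm hd.hac) hd.hcd hd.had he.hcd he.had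
      (far_symm fac) fcd fad fce fae
      (abs_lt.1 (tri_lt hTRI hd.hc hd.ha hd.hd (adj_symm hd.hac) hd.had hd.hcd)).2
      (abs_lt.1 (tri_lt hTRI he.hc he.ha he.hd (adj_symm he.hac) he.had he.hcd)).2 h

end

theorem pf_EXC (hTRI : T_TRI) (hSYM : T_SYM) (hINT : T_INT) (hOPP : T_OPP) (hEDG : T_EDG)
    (hEXI : T_EXI) : T_EXC := by
  intro E _ _ a b c d e ha hb hc hd he hab hac had hbc hbd hcd hae hbe hce hm heq
  have q1 : Qd a b c d := ⟨ha, hb, hc, hd, hab, hac, had, hbc, hbd, hcd⟩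
  have q2 : Qd a b c e := ⟨ha, hb, hc, he, hab, hac, hae, hbc, hbe, hce⟩
  rcases mn_pm hTRI hINT q1 hm with h | h
  · exact exc_one hTRI hSYM hOPP hEDG hEXI q1 q2 h (by rw [heq, h])
  · refine exc_one hTRI hSYM hOPP hEDG hEXI q1.s12 q2.s12 ?_ ?_
    · rw [mn_s12 hTRI hSYM q1, h, neg_neg]
    · rw [mn_s12 hTRI hSYM q2, heq, h, neg_neg]

end Pool.Agent.H49.FL
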