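import Pool.Agent.H58.FL.Targets

/-! MP_6a7a6f_gt, row FIV: antisymmetric tables of five rows. -/

open Pool.Agent.H58.FL Pool.Agent.H59 Pool.Agent.H48.FR

namespace Pool.Agent.H49.FL

lemma fi_row (G : Fin 5 → Fin 5 → ℝ) (hanti : ∀ i j, G i j = -G j i) (i : Fin 5) : G i i = 0 := by
  have := hanti i i
  linarith

lemma fi_one (G : Fin 5 → Fin 5 → ℝ) (hanti : ∀ i j, G i j = -G j i)
    (hb : ∀ i j, |G i j| < 9 / 32) (i : Fin 5) : |∑ j, G i j| < 9 / 8 := by
  have h0 := fi_row G hanti i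
  have h1 : ∑ j, G i j = ∑ j ∈ Finset.univ.erase i, G i j := by
    rw [← Finset.add_sum_erase _ _ (Finset.mem_univ i), h0, zero_add]
  rw [h1]
  have h2 : ∑ j ∈ Finset.univ.erase i, |G i j| < ∑ j ∈ Finset.univ.erase i, (9 / 32 : ℝ) := by
    apply Finset.sum_lt_sum_of_nonempty
    · rw [← Finset.card_pos, Finset.card_erase_of_mem (Finset.mem_univ i)]
      simp
    · intro j _
      exact hb i j
  rw [Finset.sum_const, Finset.card_erase_of_mem (Finset.mem_univ i)] at h2
  simp only [Finset.card_univ, Fintype.card_fin, nsmul_eq_mul] at h2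
  have e : (((5 - 1 : ℕ) : ℕ) : ℝ) * (9 / 32) = 9 / 8 := by norm_num
  rw [e] at h2
  exact (Finset.abs_sum_le_sum_abs _ _).trans_lt h2

lemma fi_two (G : Fin 5 → Fin 5 → ℝ) (hanti : ∀ i j, G i j = -G j i)
    (hb : ∀ i j, |G i j| < 9 / 32) (i l : Fin 5) (hil : i ≠ l) :
    |∑ j, G i j + ∑ j, G l j| < 2 := by
  have h0 := fi_row G hanti i
  have h0' := fi_row G hanti l
  have hl : l ∈ Finset.univ.erase i := Finset.mem_erase.2 ⟨hil.symm, Finset.mem_univ _⟩
  have h1 : ∑ j, G i j + ∑ j, G l j = ∑ j ∈ (Finset.univ.erase i).erase l, (G i j + G l j) := by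
    rw [← Finset.sum_add_distrib, ← Finset.add_sum_erase _ _ (Finset.mem_univ i),
      ← Finset.add_sum_erase _ _ hl, h0, h0', hanti l i]
    ring
  rw [h1]
  have hcard : ((Finset.univ.erase i).erase l : Finset (Fin 5)).card = 3 := by
    rw [Finset.card_erase_of_mem hl, Finset.card_erase_of_mem (Finset.mem_univ i)]
    simp
  have h2 : ∑ j ∈ (Finset.univ.erase i).erase l, |G i j + G l j| <
      ∑ j ∈ (Finset.univ.erase i).erase l, (9 / 16 : ℝ) := by
    apply Finset.sum_lt_sum_of_nonempty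
    · rw [← Finset.card_pos, hcard]
      norm_num
    · intro j _
      have := abs_add_le (G i j) (G l j)
      have h3 := hb i j
      have h4 := hb l j
      linarith
  rw [Finset.sum_const, hcard] at h2
  norm_num at h2
  have h3 := (Finset.abs_sum_le_sum_abs (fun j => G i j + G l j) ((Finset.univ.erase i).erase l)).trans_lt h2
  linarith

lemma fi_sum (G : Fin 5 → Fin 5 → ℝ) (hanti : ∀ i j, G i j = -G j i) : ∑ i, ∑ j, G i j = 0 := by
  have h1 : ∑ i, ∑ j, G i j = ∑ j, ∑ i, G i j := Finset.sum_comm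
  have h2 : ∑ j, ∑ i, G i j = -∑ j, ∑ i, G j i := by
    rw [← Finset.sum_neg_distrib]
    refine Finset.sum_congr rfl fun j _ => ?_
    rw [← Finset.sum_neg_distrib]
    exact Finset.sum_congr rfl fun i _ => hanti i j
  linarith

lemma fi_sgn (k : Fin 5 → ℤ) (s : ℤ) (hs : s = 1 ∨ s = -1) (h1 : ∀ i, |k i| ≤ 1)
    (h2 : ∀ i j, i ≠ j → |k i + k j| ≤ 1) (h3 : ∑ i, k i = 0) (i : Fin 5) (hi : k i = s) :
    ∃ j, j ≠ i ∧ k j = -k i ∧ ∀ l, l ≠ i → l ≠ j → k l = 0 := by
  have h4 : ∃ j, s * k j < 0 := by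
    by_contra hc
    push Not at hc
    have h5 : ∑ j, s * k j = 0 := by rw [← Finset.mul_sum, h3, mul_zero]
    have h6 := (Finset.sum_eq_zero_iff_of_nonneg (fun j _ => hc j)).1 h5 i (Finset.mem_univ _)
    rw [hi] at h6
    rcases hs with h | h <;> rw [h] at h6 <;> norm_num at h6
  obtain ⟨j, hj⟩ := h4
  have hj1 := abs_le.1 (h1 j)
  have hkj : k j = -s := by
    rcases hs with h | h <;> subst h <;> omega
  have hji : j ≠ i := by
    rintro rfl
    rw [hi] at hkj
    rcases hs with h | h <;> omega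
  refine ⟨j, hji, by rw [hkj, hi], fun l hli hlj => ?_⟩
  have e1 := abs_le.1 (h2 l i hli)
  have e2 := abs_le.1 (h2 l j hlj)
  rw [hi] at e1
  rw [hkj] at e2
  have e3 := abs_le.1 (h1 l)
  rcases hs with h | h <;> omega

theorem pf_FIV : T_FIV := by
  intro F k hanti hb hk
  have hp := Real.pi_pos
  have ha' : ∀ i j, F i j / (2 * Real.pi) = -(F j i / (2 * Real.pi)) := by
    intro i j
    rw [hanti i j, neg_div]
  have hb' : ∀ i j, |F i j / (2 * Real.pi)| < 9 / 32 := by
    intro i j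
    rw [abs_div, abs_of_pos (by linarith : 0 < 2 * Real.pi), div_lt_iff₀ (by linarith)]
    have := hb i j
    linarith
  have hk' : ∀ i, ∑ j, F i j / (2 * Real.pi) = k i := by
    intro i
    rw [← Finset.sum_div, hk i]
    field_simp
  have h1 : ∀ i, |k i| ≤ 1 := by
    intro i
    have h := fi_one (fun i j => F i j / (2 * Real.pi)) ha' hb' i
    rw [hk' i, ← Int.cast_abs] at h
    have h2 : ((|k i| : ℤ) : ℝ) < (2 : ℤ) := by push_cast; push_cast at h; linarith
    have h3 : |k i| < 2 := by exact_mod_cast h2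
    omega
  have h2 : ∀ i j, i ≠ j → |k i + k j| ≤ 1 := by
    intro i j hij
    have h := fi_two (fun i j => F i j / (2 * Real.pi)) ha' hb' i j hij
    rw [hk' i, hk' j, ← Int.cast_add, ← Int.cast_abs] at h
    have h3 : |k i + k j| < 2 := by exact_mod_cast h
    omega
  have h3 : ∑ i, k i = 0 := by
    have h := fi_sum (fun i j => F i j / (2 * Real.pi)) ha'
    simp only [hk'] at h
    exact_mod_cast h
  refine ⟨h1, h3, fun i hi => ?_⟩
  have e := abs_le.1 (h1 i)
  have hs : k i = 1 ∨ k i = -1 := by omega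
  exact fi_sgn k (k i) hs h1 h2 h3 i rfl

end Pool.Agent.H49.FL
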