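import Pool.Agent.H58.FL.Targets

/-! MP_6a7a6f_gt, row GRM: the Gram inequality for three vectors. -/

open Pool.Agent.H58.FL Pool.Agent.H59 Pool.Agent.H48.FR

namespace Pool.Agent.H49.FL

noncomputable section

lemma gr_sq (E : Type) [NormedAddCommGroup E] [InnerProductSpace ℂ E] (a w : E) (ha : ‖a‖ = 1) :
    ‖w - (inner ℂ a w : ℂ) • a‖ ^ 2 = ‖w‖ ^ 2 - ‖(inner ℂ a w : ℂ)‖ ^ 2 := by
  have h1 : ((‖w - (inner ℂ a w : ℂ) • a‖ ^ 2 : ℝ) : ℂ) =
      ((‖w‖ ^ 2 - ‖(inner ℂ a w : ℂ)‖ ^ 2 : ℝ) : ℂ) := by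
    have e1 := inner_self_eq_norm_sq_to_K (𝕜 := ℂ) (w - (inner ℂ a w : ℂ) • a)
    have e2 := inner_self_eq_norm_sq_to_K (𝕜 := ℂ) w
    have e3 := inner_self_eq_norm_sq_to_K (𝕜 := ℂ) a
    rw [ha] at e3
    have e4 : (inner ℂ w a : ℂ) = (starRingEnd ℂ) (inner ℂ a w) := (inner_conj_symm w a).symm
    have e5 : (inner ℂ a w : ℂ) * (starRingEnd ℂ) (inner ℂ a w) = ((‖(inner ℂ a w : ℂ)‖ ^ 2 : ℝ) : ℂ) := by
      rw [Complex.mul_conj, Complex.normSq_eq_norm_sq]
    rw [inner_sub_left, inner_sub_right, inner_sub_right, inner_smul_left, inner_smul_right,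
      inner_smul_left, inner_smul_right, e2, e3, e4] at e1
    push_cast at e1 e5 ⊢
    simp only [Complex.coe_algebraMap, Complex.ofReal_one, one_pow, mul_one] at e1
    rw [← e1]
    linear_combination (-1 : ℂ) * e5
  exact_mod_cast h1

theorem pf_GRM : T_GRM := by
  intro E _ _ a b w ha hb
  have hcs := norm_inner_le_norm (𝕜 := ℂ) (b - (inner ℂ a b : ℂ) • a) (w - (inner ℂ a w : ℂ) • a)
  have h2 := pow_le_pow_left₀ (norm_nonneg _) hcs 2
  rw [mul_pow, gr_sq E a b ha, gr_sq E a w ha, hb] at h2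
  have h3 : (inner ℂ (b - (inner ℂ a b : ℂ) • a) (w - (inner ℂ a w : ℂ) • a) : ℂ) =
      inner ℂ b w - (starRingEnd ℂ) (inner ℂ a b) * inner ℂ a w := by
    have e3 := inner_self_eq_norm_sq_to_K (𝕜 := ℂ) a
    rw [ha] at e3
    have e4 : (inner ℂ b a : ℂ) = (starRingEnd ℂ) (inner ℂ a b) := (inner_conj_symm b a).symm
    rw [inner_sub_left, inner_sub_right, inner_sub_right, inner_smul_left, inner_smul_right,
      inner_smul_left, inner_smul_right, e3, e4]
    simp only [Complex.coe_algebraMap, Complex.ofReal_one, one_pow, mul_one]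
    ring
  have e6 : (inner ℂ w a : ℂ) = (starRingEnd ℂ) (inner ℂ a w) := (inner_conj_symm w a).symm
  rw [h3] at h2
  rw [e6]
  generalize (inner ℂ a w : ℂ) = p at *
  generalize (inner ℂ b w : ℂ) = q at *
  generalize (inner ℂ a b : ℂ) = r at *
  rw [← Complex.normSq_eq_norm_sq, ← Complex.normSq_eq_norm_sq, ← Complex.normSq_eq_norm_sq] at h2
  rw [← Complex.normSq_eq_norm_sq, ← Complex.normSq_eq_norm_sq, ← Complex.normSq_eq_norm_sq]
  simp only [Complex.normSq_apply, Complex.sub_re, Complex.sub_im, Complex.mul_re, Complex.mul_im,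
    Complex.conj_re, Complex.conj_im] at h2 ⊢
  nlinarith [h2]

end

end Pool.Agent.H49.FL
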