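import Pool.Agent.H58.FL.Targets

/-! MP_6a7a6f_gt, row INT: the monopole number is an integer. -/

open Pool.Agent.H58.FL Pool.Agent.H59 Pool.Agent.H48.FR

namespace Pool.Agent.H49.FL

variable {E : Type} [NormedAddCommGroup E] [InnerProductSpace ℂ E]

lemma in_ang (a b c : E) (hab : (inner ℂ a b : ℂ) ≠ 0) (hbc : (inner ℂ b c : ℂ) ≠ 0)
    (hac : (inner ℂ a c : ℂ) ≠ 0) :
    (ar a b c : Real.Angle) = ((inner ℂ a b : ℂ).arg : Real.Angle) + ((inner ℂ b c : ℂ).arg : Real.Angle)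
      - ((inner ℂ a c : ℂ).arg : Real.Angle) := by
  have hca : (inner ℂ c a : ℂ) = (starRingEnd ℂ) (inner ℂ a c) := (inner_conj_symm c a).symm
  have hca0 : (starRingEnd ℂ) (inner ℂ a c : ℂ) ≠ 0 := by
    intro h
    apply hac
    rw [map_eq_zero] at h
    exact h
  unfold ar
  rw [hca, Complex.arg_mul_coe_angle (mul_ne_zero hab hbc) hca0, Complex.arg_mul_coe_angle hab hbc,
    Complex.arg_conj_coe_angle]
  abel

theorem pf_INT : T_INT := by
  intro E _ _
  refine ⟨?_, ?_⟩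
  · intro a b c d hab hac had hbc hbd hcd
    have h : ((ar b c d - ar a c d + ar a b d - ar a b c : ℝ) : Real.Angle) = ((0 : ℝ) : Real.Angle) := by
      rw [Real.Angle.coe_sub, Real.Angle.coe_add, Real.Angle.coe_sub, in_ang b c d hbc hcd hbd,
        in_ang a c d hac hcd had, in_ang a b d hab hbd had, in_ang a b c hab hbc hac,
        Real.Angle.coe_zero]
      abel
    obtain ⟨k, hk⟩ := Real.Angle.angle_eq_iff_two_pi_dvd_sub.1 h
    refine ⟨k, ?_⟩
    unfold mn
    rw [sub_zero] at hk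
    rw [hk]
    have := Real.pi_pos.ne'
    field_simp
  · intro a b c hab hbc hac
    have h : ((ar a b c : ℝ) : Real.Angle) = (((inner ℂ a b : ℂ).arg + (inner ℂ b c : ℂ).arg
        - (inner ℂ a c : ℂ).arg : ℝ) : Real.Angle) := by
      rw [in_ang a b c hab hbc hac, Real.Angle.coe_sub, Real.Angle.coe_add]
    obtain ⟨k, hk⟩ := Real.Angle.angle_eq_iff_two_pi_dvd_sub.1 h
    refine ⟨k, ?_⟩
    have h2 : ar a b c = 2 * Real.pi * k + ((inner ℂ a b : ℂ).arg + (inner ℂ b c : ℂ).arg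
        - (inner ℂ a c : ℂ).arg) := by linarith
    rw [h2]
    have := Real.pi_pos.ne'
    field_simp
    ring

end Pool.Agent.H49.FL
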