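import Pool.Agent.H58.FL.Targets

/-! MP_6a7a6f_gt, row NUM: numerical facts. -/

open Pool.Agent.H58.FL Pool.Agent.H59 Pool.Agent.H48.FR

namespace Pool.Agent.H49.FL

theorem pf_NUM : T_NUM := by
  have hp1 := Real.pi_gt_d6
  have hp2 := Real.pi_lt_d6
  refine ⟨?_, ?_, ?_, ?_, ?_, ?_⟩
  · have e : 9 * Real.pi / 16 = Real.pi / 16 + Real.pi / 2 := by ring
    rw [e, Real.cos_add_pi_div_two]
    have h1 : Real.pi / 16 - (Real.pi / 16) ^ 3 / 6 < Real.sin (Real.pi / 16) :=
      Real.sin_gt_sub_cube (by linarith)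
    have h2 : (Real.pi / 16) ^ 3 ≤ (1 / 5 : ℝ) ^ 3 :=
      pow_le_pow_left₀ (by linarith) (by linarith) 3
    norm_num at h2
    linarith
  · have e : 23 * Real.pi / 48 = Real.pi / 2 - Real.pi / 48 := by ring
    rw [e, Real.cos_pi_div_two_sub]
    have h1 : Real.sin (Real.pi / 48) < Real.pi / 48 := Real.sin_lt (by linarith)
    linarith
  · apply Real.cos_nonneg_of_neg_pi_div_two_le_of_le
    · linarith
    · linarith
  · have h1 := Real.one_sub_sq_div_two_le_cos (x := Real.pi / 12)
    have h2 : (Real.pi / 12) ^ 2 ≤ (2619 / 10000 : ℝ) ^ 2 :=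
      pow_le_pow_left₀ (by linarith) (by linarith) 2
    norm_num at h2
    linarith
  · apply Real.strictAntiOn_arccos
    · constructor <;> norm_num
    · constructor <;> norm_num
    · norm_num
  · rw [← Real.arccos_neg_one]
    apply Real.strictAntiOn_arccos
    · constructor <;> norm_num
    · constructor <;> norm_num
    · norm_num

end Pool.Agent.H49.FL
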