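import Pool.Agent.H58.FL.Targets

/-! MP_6a7a6f_gt, row OPP: two vertices of a monopole are far. -/

open Pool.Agent.H58.FL Pool.Agent.H59 Pool.Agent.H48.FR

namespace Pool.Agent.H49.FL

lemma op_half0 (X Y g : ℝ) (hX : |X| ≤ Real.pi) (hY : |Y| ≤ Real.pi) (h : 0 ≤ X - Y)
    (hgX : g ≤ Real.cos X) (hgY : g ≤ Real.cos Y) : g ≤ Real.cos ((X - Y) / 2) := by
  have h1 := abs_le.1 hX
  have h2 := abs_le.1 hY
  by_cases hc : (X - Y) / 2 ≤ X
  · exact hgX.trans (Real.cos_le_cos_of_nonneg_of_le_pi (by linarith) (by linarith) hc)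
  · push Not at hc
    have : Real.cos Y = Real.cos (-Y) := (Real.cos_neg Y).symm
    rw [this] at hgY
    exact hgY.trans (Real.cos_le_cos_of_nonneg_of_le_pi (by linarith) (by linarith) (by linarith))

lemma op_half (X Y g : ℝ) (hX : |X| ≤ Real.pi) (hY : |Y| ≤ Real.pi)
    (hgX : g ≤ Real.cos X) (hgY : g ≤ Real.cos Y) : g ≤ Real.cos ((X - Y) / 2) := by
  rcases le_total 0 (X - Y) with h | h
  · exact op_half0 X Y g hX hY h hgX hgY
  · have h1 := op_half0 Y X g hY hX (by linarith) hgY hgX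
    have e : (X - Y) / 2 = -((Y - X) / 2) := by ring
    rw [e, Real.cos_neg]
    exact h1

lemma adj_symm {E : Type} [NormedAddCommGroup E] [InnerProductSpace ℂ E] {k : ℝ} {a b : E}
    (h : Adj k a b) : Adj k b a := by
  unfold Adj at h ⊢
  rw [norm_inner_symm]
  exact h

lemma adj_ne {E : Type} [NormedAddCommGroup E] [InnerProductSpace ℂ E] {a b : E}
    (h : Adj (5 / 16) a b) : (inner ℂ a b : ℂ) ≠ 0 := by
  unfold Adj at h
  intro h0
  rw [h0, norm_zero] at h
  norm_num at h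

lemma op_int (m : ℤ) (A B : ℝ) (h : A + B = 2 * Real.pi * m) (hm : m ≠ 0) (hA : |A| < 9 * Real.pi / 8)
    (hB : |B| < 9 * Real.pi / 8) : m = 1 ∨ m = -1 := by
  have hp := Real.pi_pos
  have h1 := abs_lt.1 hA
  have h2 := abs_lt.1 hB
  have h3 : (m : ℝ) < 2 := by
    by_contra hc
    push Not at hc
    nlinarith
  have h4 : (-2 : ℝ) < m := by
    by_contra hc
    push Not at hc
    nlinarith
  have h5 : m < 2 := by exact_mod_cast h3
  have h6 : -2 < m := by exact_mod_cast h4
  omega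

theorem pf_OPP (hTRI : T_TRI) (hSYM : T_SYM) (hINT : T_INT) : T_OPP := by
  intro E _ _ a b c d ha hb hc hd hab hac had hbc hbd hcd hmn
  obtain ⟨m, hm⟩ := (hINT E).1 a b c d (adj_ne hab) (adj_ne hac) (adj_ne had) (adj_ne hbc)
    (adj_ne hbd) (adj_ne hcd)
  have hm0 : m ≠ 0 := by
    rintro rfl
    apply hmn
    rw [hm]
    simp
  have t1 := hTRI E a b d ha hb hd hab hbd (adj_symm had)
  have t2 := hTRI E a b c ha hb hc hab hbc (adj_symm hac)
  have t3 := hTRI E c d b hc hd hb hcd (adj_symm hbd) hbc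
  have t4 := hTRI E c d a hc hd ha hcd (adj_symm had) hac
  have s1 : ar c d b = ar b c d := (hSYM E b c d).1
  have s2 : ar c d a = ar a c d := (hSYM E a c d).1
  rw [s1] at t3
  rw [s2] at t4
  have hp := Real.pi_pos
  have hle : ∀ x : ℝ, |x| < 9 * Real.pi / 16 → |x| ≤ Real.pi := fun x hx => by linarith
  have g1 := op_half _ _ _ (hle _ t1.2) (hle _ t2.2) t1.1 t2.1
  have g2 := op_half _ _ _ (hle _ t3.2) (hle _ t4.2) t3.1 t4.1
  have hsum : (ar a b d - ar a b c) + (ar b c d - ar a c d) = 2 * Real.pi * m := by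
    unfold mn at hm
    rw [← hm]
    field_simp
    ring
  have b1 := abs_lt.1 t1.2
  have b2 := abs_lt.1 t2.2
  have b3 := abs_lt.1 t3.2
  have b4 := abs_lt.1 t4.2
  have hcos : Real.cos ((ar b c d - ar a c d) / 2) = -Real.cos ((ar a b d - ar a b c) / 2) := by
    rcases op_int m _ _ hsum hm0 (by rw [abs_lt]; constructor <;> linarith)
      (by rw [abs_lt]; constructor <;> linarith) with h | h
    · rw [h] at hsum
      push_cast at hsum
      have e : (ar b c d - ar a c d) / 2 = Real.pi - (ar a b d - ar a b c) / 2 := by linarith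
      rw [e, Real.cos_pi_sub]
    · rw [h] at hsum
      push_cast at hsum
      have e : (ar b c d - ar a c d) / 2 = -((ar a b d - ar a b c) / 2 + Real.pi) := by linarith
      rw [e, Real.cos_neg, Real.cos_add_pi]
  rw [hcos] at g2
  unfold Adj at hab hcd
  unfold Far
  have hn1 := norm_nonneg (inner ℂ a b : ℂ)
  have hn2 := norm_nonneg (inner ℂ c d : ℂ)
  generalize ‖(inner ℂ a b : ℂ)‖ = r at *
  generalize ‖(inner ℂ c d : ℂ)‖ = s at *
  have hr : 0 < r := by
    rcases hn1.lt_or_eq with h | h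
    · exact h
    · rw [← h] at hab; norm_num at hab
  have hs : 0 < s := by
    rcases hn2.lt_or_eq with h | h
    · exact h
    · rw [← h] at hcd; norm_num at hcd
  have g3 : (r ^ 2 - 3 / 8) / (5 / 8 * r) + (s ^ 2 - 3 / 8) / (5 / 8 * s) ≤ 0 := by linarith
  rw [div_add_div _ _ (by positivity) (by positivity), div_le_iff₀ (by positivity)] at g3
  have g4 : (r + s) * (r * s - 3 / 8) ≤ (r + s) * 0 := by nlinarith
  have g5 : r * s - 3 / 8 ≤ 0 := le_of_mul_le_mul_left g4 (by positivity)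
  have g6 : (r * s) ^ 2 ≤ (3 / 8) ^ 2 := pow_le_pow_left₀ (by positivity) (by linarith) 2
  rw [mul_pow] at g6
  nlinarith [mul_le_mul_of_nonneg_left hcd (sq_nonneg r)]

end Pool.Agent.H49.FL
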