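import Pool.Agent.H58.FL.Targets

/-! MP_6a7a6f_gt, row SYM: symmetries of the phase. -/

open Pool.Agent.H58.FL Pool.Agent.H59 Pool.Agent.H48.FR

namespace Pool.Agent.H49.FL

variable {E : Type} [NormedAddCommGroup E] [InnerProductSpace ℂ E]

lemma sy_rot (a b c : E) : ar b c a = ar a b c := by
  unfold ar
  have : (inner ℂ b c * inner ℂ c a * inner ℂ a b : ℂ) = inner ℂ a b * inner ℂ b c * inner ℂ c a := by
    ring
  rw [this]

lemma sy_ex (a b c : E) (h : |ar a b c| < Real.pi) : ar b a c = -ar a b c := by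
  unfold ar at h ⊢
  have e : (inner ℂ b a * inner ℂ a c * inner ℂ c b : ℂ) =
      (starRingEnd ℂ) (inner ℂ a b * inner ℂ b c * inner ℂ c a) := by
    rw [map_mul, map_mul, inner_conj_symm, inner_conj_symm, inner_conj_symm]
    ring
  rw [e, Complex.arg_conj]
  split_ifs with h1
  · rw [h1, abs_of_pos Real.pi_pos] at h
    exact absurd h (lt_irrefl _)
  · rfl

lemma sy_eq (a b : E) : ar a a b = 0 := by
  unfold ar
  have e : (inner ℂ a a * inner ℂ a b * inner ℂ b a : ℂ) =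
      ((‖a‖ ^ 2 * ‖(inner ℂ a b : ℂ)‖ ^ 2 : ℝ) : ℂ) := by
    have e1 := inner_self_eq_norm_sq_to_K (𝕜 := ℂ) a
    have e4 : (inner ℂ b a : ℂ) = (starRingEnd ℂ) (inner ℂ a b) := (inner_conj_symm b a).symm
    rw [e1, e4, mul_assoc, Complex.mul_conj, Complex.normSq_eq_norm_sq]
    push_cast
    rfl
  rw [e]
  exact Complex.arg_ofReal_of_nonneg (by positivity)

theorem pf_SYM : T_SYM := by
  intro E _ _ a b c
  refine ⟨sy_rot a b c, fun h => ⟨sy_ex a b c h, ?_, ?_⟩, sy_eq a b, ?_, ?_⟩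
  · -- ar a c b = ar c b a = ar b a c
    rw [← sy_rot a c b, ← sy_rot c b a]
    exact sy_ex a b c h
  · rw [← sy_rot c b a]
    exact sy_ex a b c h
  · rw [← sy_rot a b a, ← sy_rot b a a]
    exact sy_eq a b
  · rw [← sy_rot b a a]
    exact sy_eq a b

end Pool.Agent.H49.FL
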