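import Pool.Agent.H58.FL.Targets

/-! MP_6a7a6f_gt, row TRI: the phase of a triangle. -/

open Pool.Agent.H58.FL Pool.Agent.H59 Pool.Agent.H48.FR

namespace Pool.Agent.H49.FL

theorem pf_TRI (hGRM : T_GRM) (hNUM : T_NUM) : T_TRI := by
  intro E _ _ a b c ha hb hc hab hbc hca
  unfold Adj at hab hbc hca
  have h0 := hGRM E a b c ha hb
  rw [hc] at h0
  have hre : (inner ℂ a b * inner ℂ b c * inner ℂ c a : ℂ).re =
      ‖(inner ℂ a b : ℂ)‖ * ‖(inner ℂ b c : ℂ)‖ * ‖(inner ℂ c a : ℂ)‖ * Real.cos (ar a b c) := by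
    rw [← norm_mul, ← norm_mul, ar, Complex.norm_mul_cos_arg]
  have hac : ‖(inner ℂ a c : ℂ)‖ = ‖(inner ℂ c a : ℂ)‖ := norm_inner_symm a c
  have hr1 : ‖(inner ℂ a b : ℂ)‖ ≤ 1 := by
    have := norm_inner_le_norm (𝕜 := ℂ) a b
    rw [ha, hb] at this
    linarith
  rw [hre, hac] at h0
  have hn1 := norm_nonneg (inner ℂ a b : ℂ)
  have hn2 := norm_nonneg (inner ℂ b c : ℂ)
  have hn3 := norm_nonneg (inner ℂ c a : ℂ)
  have hcos : Real.cos (ar a b c) = Real.cos |ar a b c| := (Real.cos_abs _).symm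
  have hpi : |ar a b c| ≤ Real.pi := Complex.abs_arg_le_pi _
  generalize ‖(inner ℂ a b : ℂ)‖ = r at *
  generalize ‖(inner ℂ b c : ℂ)‖ = x at *
  generalize ‖(inner ℂ c a : ℂ)‖ = y at *
  generalize ar a b c = F at *
  have hx : 0 < x := by
    rcases hn2.lt_or_eq with h | h
    · exact h
    · rw [← h] at hbc; norm_num at hbc
  have hy : 0 < y := by
    rcases hn3.lt_or_eq with h | h
    · exact h
    · rw [← h] at hca; norm_num at hca
  have hr : 0 < r := by
    rcases hn1.lt_or_eq with h | h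
    · exact h
    · rw [← h] at hab; norm_num at hab
  have hxy : 5 / 16 ≤ x * y := by
    have h1 : (5 / 16 : ℝ) ^ 2 ≤ (x * y) ^ 2 := by
      rw [mul_pow]
      nlinarith [mul_le_mul hbc hca (by norm_num) (by nlinarith)]
    exact (abs_le_of_sq_le_sq' h1 (by nlinarith [mul_pos hx hy])).2
  have h1 : x * y * (r ^ 2 - 3 / 8) ≤ x * y * (5 / 8 * r * Real.cos F) := by
    have e1 : 0 ≤ 5 / 16 * (x - y) ^ 2 + (1 - r ^ 2) * (x * y - 5 / 16) := by
      have : 0 ≤ 1 - r ^ 2 := by nlinarith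
      have h2 := mul_nonneg this (by linarith : 0 ≤ x * y - 5 / 16)
      nlinarith [sq_nonneg (x - y)]
    nlinarith
  have h2 : r ^ 2 - 3 / 8 ≤ 5 / 8 * r * Real.cos F := le_of_mul_le_mul_left h1 (mul_pos hx hy)
  refine ⟨?_, ?_⟩
  · rw [div_le_iff₀ (by linarith)]
    linarith
  · by_contra hcon
    push Not at hcon
    have h3 : Real.cos |F| ≤ Real.cos (9 * Real.pi / 16) :=
      Real.cos_le_cos_of_nonneg_of_le_pi (by linarith [Real.pi_pos]) hpi hcon
    have h4 : Real.cos F < -(181 / 1000) := by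
      rw [hcos]
      exact lt_of_le_of_lt h3 hNUM.1
    have h5 : 559 / 1000 ≤ r := by
      by_contra h
      push Not at h
      nlinarith
    have h6 : r * Real.cos F < r * (-(181 / 1000)) := mul_lt_mul_of_pos_left h4 hr
    nlinarith

end Pool.Agent.H49.FL
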