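import Pool.Agent.H58.FL.TargetsD

/-! # Common lemmas for the rows W4, W5 of `fld_modules` (MP_6a7a6f_gt) (helper49) -/

open Pool.Agent.H58.FL Pool.Agent.H59 Pool.Agent.H48.FR

namespace Pool.Agent.H49.FL

section

variable {E : Type} [NormedAddCommGroup E] [InnerProductSpace ℂ E]

theorem ad_symm {a b : E} (h : Ad a b) : Ad b a := by
  unfold Ad at h ⊢
  rw [norm_inner_symm]
  exact h

theorem ad_self (hk : k2 < 1) {a : E} (h : ‖a‖ = 1) : Ad a a := by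
  unfold Ad
  rw [inner_self_eq_norm_sq_to_K, h]
  simpa using hk

theorem phase_lt (hTR2 : T_TR2) {h a b : E} (hh : ‖h‖ = 1) (ha : Sp h a) (hb : Sp h b)
    (hab : Ad a b) : |ar h a b| < 7 * Real.pi / 10 :=
  (hTR2 E h a b hh ha.1 hb.1).2 ha.2.1 hab (ad_symm hb.2.1)

theorem cos_ge {δ β : ℝ} (h1 : |δ| ≤ β) (h2 : β ≤ Real.pi) : Real.cos β ≤ Real.cos δ := by
  rw [← Real.cos_abs δ]
  exact Real.cos_le_cos_of_nonneg_of_le_pi (abs_nonneg _) h2 h1

end

end Pool.Agent.H49.FL
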