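import Pool.Agent.H49.FL.W45c

/-! # Row W5 of `fld_modules` (MP_6a7a6f_gt): the wheels with five spokes (helper49) -/

open Pool.Agent.H58.FL Pool.Agent.H59 Pool.Agent.H48.FR

namespace Pool.Agent.H49.FL

/-- the rim of a wheel with five spokes -/
def x5 {E : Type} (a b c d e : E) : ℕ → E
  | 0 => a
  | 1 => b
  | 2 => c
  | 3 => d
  | 4 => e
  | _ + 5 => a

theorem pf_W5 (hWHE : T_WHE) (hTR2 : T_TR2) (hI5 : T_I5) (hNU3 : T_NU3) : T_W5 := by
  intro E _ _ h a b c d e hh ha hb hc hd he hab hbc hcd hde hea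
  obtain ⟨_, ⟨k0, _, k1, _, kr, kl⟩, _, ⟨kh, _⟩, _, _, _⟩ := hNU3
  have hk1 : k2 < 1 := by linarith
  have hpi := Real.pi_pos
  have t0 := phase_lt hTR2 hh ha hb hab
  have t1 := phase_lt hTR2 hh hb hc hbc
  have t2 := phase_lt hTR2 hh hc hd hcd
  have t3 := phase_lt hTR2 hh hd he hde
  have t4 := phase_lt hTR2 hh he ha hea
  rw [abs_lt] at t0 t1 t2 t3 t4
  by_contra hP
  push Not at hP
  obtain ⟨P, hPe⟩ : ∃ P, P = ar h a b + ar h b c + ar h c d + ar h d e + ar h e a := ⟨_, rfl⟩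
  rw [← hPe] at hP
  obtain ⟨δ, hδ⟩ : ∃ δ, δ = (P - 3 * Real.pi) / 5 := ⟨_, rfl⟩
  have hd1 : -(Real.pi / 10) ≤ δ := by linarith
  have hd2 : δ < Real.pi / 10 := by linarith
  have hdabs : |δ| ≤ Real.pi / 10 := by rw [abs_le]; constructor <;> linarith
  have hcos : Real.cos (Real.pi / 10) ≤ Real.cos δ := cos_ge hdabs (by linarith)
  have hcosp : 0 < Real.cos δ := by
    apply Real.cos_pos_of_mem_Ioo
    constructor <;> linarith
  have hsp : ∀ j, Sp h (x5 a b c d e j) := by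
    intro j
    match j with
    | 0 => exact ha
    | 1 => exact hb
    | 2 => exact hc
    | 3 => exact hd
    | 4 => exact he
    | _ + 5 => exact ha
  have hadj : ∀ j, Ad (x5 a b c d e j) (x5 a b c d e (j + 1)) := by
    intro j
    match j with
    | 0 => exact hab
    | 1 => exact hbc
    | 2 => exact hcd
    | 3 => exact hde
    | 4 => exact hea
    | _ + 5 => exact ad_self hk1 ha.1
  have hsum : ∑ j ∈ Finset.range 5, (ar h (x5 a b c d e j) (x5 a b c d e (j + 1)) - δ) =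
      (2 * ((1 : ℤ) : ℝ) + 1) * Real.pi := by
    simp only [Finset.sum_range_succ, Finset.sum_range_zero, x5]
    push_cast
    linarith
  obtain ⟨t, γ, ht0, ht, hγ, hγs, hineq⟩ := hWHE E k2 5 h (x5 a b c d e) δ 1 k0 hk1 hh
    (fun j => (hsp j).1) rfl (fun j => ⟨(hsp j).2.1.le, (hsp j).2.2⟩) hadj hcosp hsum
  rw [kr, kl] at ht
  refine hI5 t (fun j => ar h (x5 a b c d e j) (x5 a b c d e (j + 1)) - δ) γ ht0 ht ?_ ?_ hγ hγs ?_
  · intro j hj
    interval_cases j <;> simp only [x5] <;> rw [abs_le] <;> constructor <;> linarith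
  · rw [hsum]; push_cast; ring
  · intro j hj
    refine lt_of_le_of_lt ?_ (hineq j)
    have hT : 0 ≤ 1 + t j * t (j + 1) := by
      have := mul_pos (ht j).1 (ht (j + 1)).1
      linarith
    apply mul_le_mul_of_nonneg_right _ hT
    rw [← kh]
    exact mul_le_mul_of_nonneg_left hcos (Real.sqrt_nonneg _)

end Pool.Agent.H49.FL
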